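import Pool.Agent.Helper22.MI.Stmts0

set_option autoImplicit false

/-! # Density of the integer points or few layers -/

namespace Pool.Agent.Helper22.MI

open Finset

theorem alt_cos (r : ℝ) : 8 * (r - round r) ^ 2 ≤ 1 - Real.cos (2 * Real.pi * r) := by
  set y := r - round r with hy
  have h1 : |y| ≤ 1 / 2 := abs_sub_round r
  have h2 : Real.cos (2 * Real.pi * r) = Real.cos (2 * (Real.pi * |y|)) := by
    have e1 : 2 * Real.pi * r = 2 * Real.pi * y + (round r : ℤ) * (2 * Real.pi) := by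
      rw [hy]; ring
    rw [e1, Real.cos_add_int_mul_two_pi, ← Real.cos_abs (2 * Real.pi * y)]
    congr 1
    rw [abs_mul, abs_of_pos (by positivity : (0 : ℝ) < 2 * Real.pi)]
    ring
  have h3 : 2 * |y| ≤ Real.sin (Real.pi * |y|) := by
    have h4 := Real.mul_le_sin (x := Real.pi * |y|) (by positivity)
      (by nlinarith [Real.pi_pos])
    have h5 : 2 / Real.pi * (Real.pi * |y|) = 2 * |y| := by
      field_simp
    rwa [h5] at h4
  have h6 : (2 * |y|) ^ 2 ≤ Real.sin (Real.pi * |y|) ^ 2 :=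
    pow_le_pow_left₀ (by positivity) h3 2
  rw [h2, Real.cos_two_mul]
  have h7 := Real.sin_sq_add_cos_sq (Real.pi * |y|)
  have h8 : (2 * |y|) ^ 2 = 4 * y ^ 2 := by
    rw [mul_pow, sq_abs]; norm_num
  nlinarith

theorem st_ALT (hTOR : ST_TOR) (hDEN : ST_DEN) : ST_ALT := by
  intro j k m ρ w hw hρ hm
  obtain ⟨D, hD, hDen⟩ := hDEN j k w hw
  have hDR : (0 : ℝ) < D := by exact_mod_cast hD
  have : NeZero D := ⟨hD.ne'⟩
  let Γ : AddSubgroup (Fin j → ZMod D) :=
    { carrier := {g | ∃ (z : Fin k → ℤ) (x : Fin j → ℝ) (G : Fin j → ℤ),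
        (∀ i, (z i : ℝ) = ∑ l, x l * w l i) ∧ (∀ l, (D : ℝ) * x l = G l) ∧
        ∀ l, g l = (G l : ZMod D)}
      zero_mem' := ⟨0, 0, 0, by simp, by simp, by simp⟩
      add_mem' := by
        rintro a b ⟨z, x, G, h1, h2, h3⟩ ⟨z', x', G', h1', h2', h3'⟩
        refine ⟨z + z', x + x', G + G', fun i => ?_, fun l => ?_, fun l => ?_⟩
        · simp only [Pi.add_apply, Int.cast_add, h1 i, h1' i, add_mul, Finset.sum_add_distrib]
        · simp only [Pi.add_apply, Int.cast_add, ← h2 l, ← h2' l, mul_add]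
        · simp only [Pi.add_apply, Int.cast_add, h3 l, h3' l]
      neg_mem' := by
        rintro a ⟨z, x, G, h1, h2, h3⟩
        refine ⟨-z, -x, -G, fun i => ?_, fun l => ?_, fun l => ?_⟩
        · simp only [Pi.neg_apply, Int.cast_neg, h1 i, neg_mul, Finset.sum_neg_distrib]
        · simp only [Pi.neg_apply, Int.cast_neg, ← h2 l, mul_neg]
        · simp only [Pi.neg_apply, Int.cast_neg, h3 l] }
  by_cases hA : ∃ h : Fin j → ℤ, h ≠ 0 ∧ (∀ i, |h i| ≤ m) ∧
      ∀ γ ∈ Γ, ∑ i, (h i : ZMod D) * γ i = 0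
  · right
    obtain ⟨h, h0, hm', hann⟩ := hA
    refine ⟨h, h0, hm', ?_⟩
    intro z x hzx
    obtain ⟨G, hG⟩ := hDen z x hzx
    have hmem : (fun l => (G l : ZMod D)) ∈ Γ := ⟨z, x, G, hzx, hG, fun _ => rfl⟩
    have h4 := hann _ hmem
    have h5 : ((∑ l, h l * G l : ℤ) : ZMod D) = 0 := by
      push_cast
      exact h4
    rw [ZMod.intCast_zmod_eq_zero_iff_dvd] at h5
    obtain ⟨a, ha⟩ := h5
    refine ⟨a, ?_⟩
    have h6 : (D : ℝ) * ∑ l, (h l : ℝ) * x l = D * a := by
      have h7 : ((∑ l, h l * G l : ℤ) : ℝ) = ((D * a : ℤ) : ℝ) := by rw [ha]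
      push_cast at h7
      rw [← h7, Finset.mul_sum]
      refine Finset.sum_congr rfl fun l _ => ?_
      rw [← hG l]
      ring
    exact mul_left_cancel₀ hDR.ne' h6
  · left
    push Not at hA
    intro t
    obtain ⟨γ, hγ, hcos⟩ := hTOR j D m (8 * ρ ^ 2) hD hm Γ t
      (fun h h0 hm' => hA h h0 hm')
    obtain ⟨z, x, G, h1, h2, h3⟩ := hγ
    have hb : ∀ l, ∃ b : ℤ, G l = (ZMod.val (γ l) : ℤ) + D * b := by
      intro l
      have h4 : ((G l : ℤ) : ZMod D) = (((ZMod.val (γ l) : ℕ) : ℤ) : ZMod D) := by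
        rw [← h3 l]
        simp
      have h5 : (((G l - ZMod.val (γ l) : ℤ)) : ZMod D) = 0 := by
        rw [Int.cast_sub, h4, sub_self]
      rw [ZMod.intCast_zmod_eq_zero_iff_dvd] at h5
      obtain ⟨b, hb⟩ := h5
      exact ⟨b, by linarith⟩
    choose b hb using hb
    set r : Fin j → ℝ := fun l => (ZMod.val (γ l) : ℝ) / D - t l with hr
    refine ⟨fun i => z i - ∑ l, (b l + round (r l)) * w l i,
      fun l => x l - (b l + round (r l)), fun i => ?_, fun l => ?_⟩
    · push_cast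
      rw [h1 i, ← Finset.sum_sub_distrib]
      refine Finset.sum_congr rfl fun l _ => ?_
      ring
    · have hx : x l = (ZMod.val (γ l) : ℝ) / D + b l := by
        have h6 := h2 l
        rw [hb l] at h6
        push_cast at h6
        field_simp
        linarith
      have hy : x l - (b l + round (r l)) - t l = r l - round (r l) := by
        rw [hx, hr]
        ring
      rw [hy]
      have h7 : 1 - Real.cos (2 * Real.pi * r l) < 8 * ρ ^ 2 := by
        refine lt_of_le_of_lt ?_ hcos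
        exact Finset.single_le_sum
          (f := fun i => 1 - Real.cos (2 * Real.pi * ((ZMod.val (γ i) : ℝ) / D - t i)))
          (fun i _ => by
            have := Real.cos_le_one (2 * Real.pi * ((ZMod.val (γ i) : ℝ) / D - t i))
            show 0 ≤ 1 - Real.cos (2 * Real.pi * ((ZMod.val (γ i) : ℝ) / D - t i))
            linarith) (Finset.mem_univ l)
      have h8 := alt_cos (r l)
      exact abs_lt_of_sq_lt_sq (by linarith) hρ.le

end Pool.Agent.Helper22.MI
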