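import Pool.Agent.Helper22.MI.Stmts1

set_option autoImplicit false

/-! # Convexity of polyhedra and spectrahedra, and their pieces -/

namespace Pool.Agent.Helper22.MI

open Finset Pool.Agent.Helper68.SDP Pool.Agent.Helper68.LP

theorem cvx_lin {d : ℕ} (A : Fin d → ℝ) (y z : Fin d → ℝ) (a b : ℝ) :
    ∑ j, A j * (a • y + b • z) j = a * ∑ j, A j * y j + b * ∑ j, A j * z j := by
  rw [Finset.mul_sum, Finset.mul_sum, ← Finset.sum_add_distrib]
  refine Finset.sum_congr rfl fun j _ => ?_
  simp only [Pi.add_apply, Pi.smul_apply, smul_eq_mul]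
  ring

theorem cvx_app {d s s' : ℕ} (E : Fin s → Fin d → ℝ) (e : Fin s → ℝ) (E' : Fin s' → Fin d → ℝ)
    (e' : Fin s' → ℝ) (y : Fin d → ℝ) :
    (∀ k, ∑ j, Fin.append E E' k j * y j = Fin.append e e' k) ↔
      (∀ k, ∑ j, E k j * y j = e k) ∧ ∀ k, ∑ j, E' k j * y j = e' k := by
  constructor
  · intro h
    refine ⟨fun k => ?_, fun k => ?_⟩
    · have := h (Fin.castAdd s' k)
      simpa only [Fin.append_left] using this
    · have := h (Fin.natAdd s k)
      simpa only [Fin.append_right] using this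
  · rintro ⟨h1, h2⟩ k
    refine Fin.addCases (fun k => ?_) (fun k => ?_) k
    · simpa only [Fin.append_left] using h1 k
    · simpa only [Fin.append_right] using h2 k

theorem st_CVX (hE : ST_EQS) : ST_CVX := by
  refine ⟨?_, ?_, ?_⟩
  · rintro d r Q ⟨A, b, s, E, e, rfl⟩
    intro y hy z hz a b' ha hb hab
    refine ⟨fun k => ?_, fun k => ?_⟩
    · rw [cvx_lin]
      have h1 := mul_le_mul_of_nonneg_left (hy.1 k) ha
      have h2 := mul_le_mul_of_nonneg_left (hz.1 k) hb
      calc a * ∑ j, A k j * y j + b' * ∑ j, A k j * z j ≤ a * b k + b' * b k := by linarith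
        _ = b k := by rw [← add_mul, hab, one_mul]
    · rw [cvx_lin, hy.2 k, hz.2 k, ← add_mul, hab, one_mul]
  · rintro d r Q ⟨B₀, B, s, E, e, hB0, hB, rfl⟩
    intro y hy z hz a b' ha hb hab
    refine ⟨?_, fun k => ?_⟩
    · have h1 : B₀ + ∑ j, (a • y + b' • z) j • B j
          = a • (B₀ + ∑ j, y j • B j) + b' • (B₀ + ∑ j, z j • B j) := by
        have h2 : B₀ = a • B₀ + b' • B₀ := by rw [← add_smul, hab, one_smul]
        have h3 : ∑ j, (a • y + b' • z) j • B j
            = a • ∑ j, y j • B j + b' • ∑ j, z j • B j := by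
          rw [Finset.smul_sum, Finset.smul_sum, ← Finset.sum_add_distrib]
          refine Finset.sum_congr rfl fun j _ => ?_
          simp only [Pi.add_apply, Pi.smul_apply, smul_eq_mul, add_smul, mul_smul]
        rw [h3, smul_add, smul_add]
        conv_lhs => rw [h2]
        abel
      rw [h1]
      exact (hy.1.smul ha).add (hz.1.smul hb)
    · rw [cvx_lin, hy.2 k, hz.2 k, ← add_mul, hab, one_mul]
  · intro ι _ d k r Q p p₀ z T hT
    obtain ⟨s', G, g, hG⟩ := hE ι k (fun σ i => (z σ i : ℝ)) T hT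
    have key : ∀ y : Fin d → ℝ, (∃ μ : ι → ℝ, ∑ σ ∈ T, μ σ = 1 ∧
        ∀ i, ∑ j, p i j * y j + p₀ i = ∑ σ ∈ T, μ σ * z σ i) ↔
        ∀ a, ∑ j, (∑ i, G a i * p i j) * y j = g a - ∑ i, G a i * p₀ i := by
      intro y
      rw [hG (fun i => ∑ j, p i j * y j + p₀ i)]
      refine forall_congr' fun a => ?_
      have h1 : ∑ i, G a i * (∑ j, p i j * y j + p₀ i)
          = ∑ j, (∑ i, G a i * p i j) * y j + ∑ i, G a i * p₀ i := by
        simp only [mul_add, Finset.sum_add_distrib, Finset.sum_mul, Finset.mul_sum]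
        congr 1
        rw [Finset.sum_comm]
        refine Finset.sum_congr rfl fun i _ => Finset.sum_congr rfl fun j _ => ?_
        ring
      rw [h1]
      constructor
      · intro h; linarith
      · intro h; linarith
    constructor
    · rintro ⟨A, b, s, E, e, rfl⟩
      refine ⟨A, b, s + s', Fin.append E (fun a j => ∑ i, G a i * p i j),
        Fin.append e (fun a => g a - ∑ i, G a i * p₀ i), ?_⟩
      ext y
      simp only [Piece, Set.mem_ofPred_eq, key y, cvx_app, and_assoc]
    · rintro ⟨B₀, B, s, E, e, hB0, hB, rfl⟩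
      refine ⟨B₀, B, s + s', Fin.append E (fun a j => ∑ i, G a i * p i j),
        Fin.append e (fun a => g a - ∑ i, G a i * p₀ i), hB0, hB, ?_⟩
      ext y
      simp only [Piece, Set.mem_ofPred_eq, key y, cvx_app, and_assoc]

end Pool.Agent.Helper22.MI
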