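import Pool.Agent.Helper22.MI.Stmts0

set_option autoImplicit false

/-! # An affine span is the solution set of finitely many equations -/

namespace Pool.Agent.Helper22.MI

open Finset
open scoped Classical

theorem st_EQS : ST_EQS := by
  intro ι _ k v T hT
  obtain ⟨s0, hs0⟩ := hT
  set V : Submodule ℝ (Fin k → ℝ) :=
    Submodule.span ℝ ((fun σ : ι => v σ - v s0) '' (T : Set ι)) with hV
  have hmem : ∀ w : Fin k → ℝ, (∃ μ : ι → ℝ, ∑ σ ∈ T, μ σ = 1 ∧
      ∀ i, w i = ∑ σ ∈ T, μ σ * v σ i) ↔ w - v s0 ∈ V := by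
    intro w
    constructor
    · rintro ⟨μ, h1, h2⟩
      have h3 : w - v s0 = ∑ σ ∈ T, μ σ • (v σ - v s0) := by
        ext i
        simp only [Pi.sub_apply, Finset.sum_apply, Pi.smul_apply, smul_eq_mul, mul_sub,
          Finset.sum_sub_distrib]
        rw [← Finset.sum_mul, h1, one_mul, h2 i]
      rw [h3]
      refine Submodule.sum_mem _ fun σ hσ => Submodule.smul_mem _ _ ?_
      exact Submodule.subset_span ⟨σ, hσ, rfl⟩
    · intro h
      rw [hV, Submodule.mem_span_image_finset_iff_exists_fun'] at h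
      obtain ⟨c, hc⟩ := h
      refine ⟨fun σ => c σ + (if σ = s0 then 1 - ∑ τ ∈ T, c τ else 0), ?_, ?_⟩
      · rw [Finset.sum_add_distrib, Finset.sum_ite_eq' T s0, if_pos hs0]
        ring
      · intro i
        have h4 : w i - v s0 i = ∑ σ ∈ T, c σ * (v σ i - v s0 i) := by
          have := congrFun hc i
          simp only [Finset.sum_apply, Pi.smul_apply, Pi.sub_apply, smul_eq_mul] at this
          exact this.symm
        have h5 : ∑ σ ∈ T, (c σ + (if σ = s0 then 1 - ∑ τ ∈ T, c τ else 0)) * v σ i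
            = ∑ σ ∈ T, c σ * v σ i + (1 - ∑ τ ∈ T, c τ) * v s0 i := by
          simp only [add_mul, Finset.sum_add_distrib]
          congr 1
          rw [Finset.sum_eq_single s0]
          · rw [if_pos rfl]
          · intro b _ hb
            rw [if_neg hb, zero_mul]
          · intro h; exact absurd hs0 h
        rw [h5]
        simp only [mul_sub, Finset.sum_sub_distrib, ← Finset.sum_mul] at h4
        linarith
  set W := (Fin k → ℝ) ⧸ V with hW
  let b := Module.finBasis ℝ W
  let φ : (Fin k → ℝ) →ₗ[ℝ] (Fin (Module.finrank ℝ W) → ℝ) :=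
    b.equivFun.toLinearMap ∘ₗ V.mkQ
  have hφ : ∀ w : Fin k → ℝ, w ∈ V ↔ φ w = 0 := by
    intro w
    show w ∈ V ↔ b.equivFun (V.mkQ w) = 0
    rw [LinearEquiv.map_eq_zero_iff, Submodule.mkQ_apply, Submodule.Quotient.mk_eq_zero]
  have hexp : ∀ (w : Fin k → ℝ) a, φ w a = ∑ i, φ (Pi.single i 1) a * w i := by
    intro w a
    have h6 : w = ∑ i, w i • (Pi.single i (1 : ℝ) : Fin k → ℝ) := by
      ext j
      simp [Finset.sum_apply, Pi.single_apply]
    conv_lhs => rw [h6]
    rw [map_sum, Finset.sum_apply]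
    refine Finset.sum_congr rfl fun i _ => ?_
    rw [map_smul, Pi.smul_apply, smul_eq_mul, mul_comm]
  refine ⟨Module.finrank ℝ W, fun a i => φ (Pi.single i 1) a, fun a => φ (v s0) a, ?_⟩
  intro w
  rw [hmem w, hφ, map_sub, sub_eq_zero]
  constructor
  · intro h a
    rw [← hexp, h]
  · intro h
    ext a
    rw [hexp, h a]

end Pool.Agent.Helper22.MI
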