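import Pool.Agent.Helper22.MI.Stmts1

set_option autoImplicit false

/-! # Trivial bounds for the length of a tour -/

namespace Pool.Agent.Helper22.MI

open Finset Pool.Agent.Helper68.SDP Pool.Agent.Helper68.LP

theorem st_LEN : ST_LEN := by
  intro n R P σ hP
  have h0 : ∀ p q : ℤ × ℤ, 0 ≤ dE p q := fun p q => Real.sqrt_nonneg _
  have h1 : ∀ i j, dE (P i) (P j) ≤ 2 * R := by
    intro i j
    obtain ⟨a1, a2, a3, a4⟩ := hP i
    obtain ⟨b1, b2, b3, b4⟩ := hP j
    unfold dE
    have c1 : (((P i).1 - (P j).1 : ℤ) : ℝ) ≤ R := by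
      have : (P i).1 - (P j).1 ≤ (R : ℤ) := by omega
      exact_mod_cast this
    have c2 : -(R : ℝ) ≤ (((P i).1 - (P j).1 : ℤ) : ℝ) := by
      have : -(R : ℤ) ≤ (P i).1 - (P j).1 := by omega
      exact_mod_cast this
    have c3 : (((P i).2 - (P j).2 : ℤ) : ℝ) ≤ R := by
      have : (P i).2 - (P j).2 ≤ (R : ℤ) := by omega
      exact_mod_cast this
    have c4 : -(R : ℝ) ≤ (((P i).2 - (P j).2 : ℤ) : ℝ) := by
      have : -(R : ℤ) ≤ (P i).2 - (P j).2 := by omega
      exact_mod_cast this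
    rw [Real.sqrt_le_iff]
    constructor
    · positivity
    · nlinarith
  constructor
  · exact Finset.sum_nonneg fun i _ => h0 _ _
  · unfold tlen
    calc ∑ i, dE (P (σ i)) (P (σ (finRotate n i))) ≤ ∑ _i : Fin n, 2 * (R : ℝ) :=
          Finset.sum_le_sum fun i _ => h1 _ _
      _ = 2 * n * R := by
          rw [Finset.sum_const, Finset.card_univ, Fintype.card_fin, nsmul_eq_mul]
          ring

end Pool.Agent.Helper22.MI
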