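import Pool.Agent.Helper22.MI.Stmts0

set_option autoImplicit false

/-! # A lower bound on a good piece -/

namespace Pool.Agent.Helper22.MI

open Finset

theorem st_PIE : ST_PIE := by
  intro ι _ d k Q p p₀ x z ε δ L len c c₀ T hQ hx hz hε hε4 hδ hlen hG hval hopt y hy
  obtain ⟨hyQ, μ, hμ1, hμ⟩ := hy
  obtain ⟨lam, hl0, hl1, hl⟩ := hG μ hμ1
  set q : Fin d → ℝ := ∑ σ ∈ T, lam σ • x σ with hq
  have hqQ : q ∈ Q := hQ.sum_mem hl0 hl1 (fun σ _ => hx σ)
  have hqj : ∀ j, q j = ∑ σ ∈ T, lam σ * x σ j := by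
    intro j
    simp [hq, Finset.sum_apply]
  set y' : Fin d → ℝ := (1 - ε) • y + ε • q with hy'
  have hy'j : ∀ j, y' j = (1 - ε) * y j + ε * q j := by
    intro j
    simp [hy']
  have hy'Q : y' ∈ Q := hQ hyQ hqQ (by linarith) (by linarith) (by ring)
  -- affine functions of q
  have haff : ∀ (f : Fin d → ℝ) (f0 : ℝ), ∑ j, f j * q j + f0
      = ∑ σ ∈ T, lam σ * (∑ j, f j * x σ j + f0) := by
    intro f f0
    simp only [mul_add, Finset.sum_add_distrib, ← Finset.sum_mul, hl1, one_mul]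
    congr 1
    simp only [hqj, Finset.mul_sum]
    rw [Finset.sum_comm]
    refine Finset.sum_congr rfl fun σ _ => Finset.sum_congr rfl fun j _ => ?_
    ring
  have haff2 : ∀ (f : Fin d → ℝ) (f0 : ℝ), ∑ j, f j * y' j + f0
      = (1 - ε) * (∑ j, f j * y j + f0) + ε * (∑ j, f j * q j + f0) := by
    intro f f0
    simp only [hy'j]
    have : ∀ j, f j * ((1 - ε) * y j + ε * q j) = (1 - ε) * (f j * y j) + ε * (f j * q j) :=
      fun j => by ring
    simp only [this, Finset.sum_add_distrib, ← Finset.mul_sum]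
    ring
  have hmix : y' ∈ MixInt Q p p₀ := by
    refine ⟨hy'Q, fun i => ?_⟩
    obtain ⟨a, ha⟩ := hl i
    refine ⟨a, ?_⟩
    rw [haff2, haff, hμ i, ← ha]
    congr 2
    refine Finset.sum_congr rfl fun σ _ => ?_
    rw [hz]
  obtain ⟨s, hs⟩ := hopt y' hmix
  refine ⟨s, ?_⟩
  have hwq : ∑ j, c j * q j + c₀ ≤ L + δ := by
    rw [haff]
    calc ∑ σ ∈ T, lam σ * (∑ j, c j * x σ j + c₀) ≤ ∑ σ ∈ T, lam σ * (L + δ) := by
          refine Finset.sum_le_sum fun σ hσ => mul_le_mul_of_nonneg_left ?_ (hl0 σ hσ)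
          have h1 := (abs_le.1 (hval σ)).2
          have h2 := (hlen σ).2
          linarith
      _ = L + δ := by rw [← Finset.sum_mul, hl1, one_mul]
  rw [haff2] at hs
  have hls := hlen s
  have hL0 : 0 ≤ L := hls.1.trans hls.2
  by_contra hcon
  push Not at hcon
  set A := ∑ j, c j * y j + c₀ with hA
  set B := ∑ j, c j * q j + c₀ with hB
  have h3 : (1 - ε) * A < (1 - ε) * (len s - (2 * δ + 2 * ε * L)) :=
    mul_lt_mul_of_pos_left hcon (by linarith)
  have h4 : ε * B ≤ ε * (L + δ) := mul_le_mul_of_nonneg_left hwq hε.le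
  have h5 : 0 ≤ ε * len s := mul_nonneg hε.le hls.1
  have h6 : 0 ≤ ε * L := mul_nonneg hε.le hL0
  have h7 : ε * (ε * L) ≤ 1 / 4 * (ε * L) := mul_le_mul_of_nonneg_right hε4 h6
  have h8 : ε * δ ≤ 1 / 4 * δ := mul_le_mul_of_nonneg_right hε4 hδ
  nlinarith

end Pool.Agent.Helper22.MI
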