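import Pool.Agent.Helper22.MI.Stmts1

set_option autoImplicit false

/-! # Elimination of the integer variables -/

namespace Pool.Agent.Helper22.MI

open Finset Pool.Agent.Helper68.SDP Pool.Agent.Helper68.LP
open scoped Classical

theorem st_RED (hREC : ST_REC) (hPIE : ST_PIE) (hCVX : ST_CVX) (hUNL : ST_UNL) (hUNS : ST_UNS)
    (hLEN : ST_LEN) : ST_RED := by
  intro n R r k d m δ ε Q p p₀ hδ hε hε4 hm hS
  obtain ⟨x, hx, hP⟩ := hS
  choose z hz using fun σ i => (hx σ).2 i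
  obtain ⟨F, hFc, hF, hcov⟩ := hREC (Equiv.Perm (Fin n)) k m ε z hε (by linarith) hm
  have hxQ : ∀ σ, x σ ∈ Q := fun σ => (hx σ).1
  let T : Fin F.card → Finset (Equiv.Perm (Fin n)) := fun i => (F.equivFin.symm i).1
  have hT : ∀ i, T i ∈ F := fun i => (F.equivFin.symm i).2
  have hTs : ∀ S ∈ F, ∃ i, T i = S := by
    intro S hS
    refine ⟨F.equivFin ⟨S, hS⟩, ?_⟩
    simp [T]
  have hxp : ∀ i, ∀ σ ∈ T i, x σ ∈ Piece Q p p₀ z (T i) := by
    intro i σ hσ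
    refine ⟨hxQ σ, fun τ => if τ = σ then 1 else 0, ?_, fun l => ?_⟩
    · rw [Finset.sum_ite_eq', if_pos hσ]
    · rw [hz σ l, Finset.sum_eq_single σ]
      · show (z σ l : ℝ) = (if σ = σ then (1 : ℝ) else 0) * z σ l
        rw [if_pos rfl, one_mul]
      · intro b _ hb
        show (if b = σ then (1 : ℝ) else 0) * z b l = 0
        rw [if_neg hb, zero_mul]
      · intro h; exact absurd hσ h
  have hne : ∀ i, (Piece Q p p₀ z (T i)).Nonempty := by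
    intro i
    obtain ⟨σ, hσ⟩ := (hF (T i) (hT i)).1
    exact ⟨x σ, hxp i σ hσ⟩
  have hxcov : ∀ σ, ∃ i, x σ ∈ Piece Q p p₀ z (T i) := by
    intro σ
    obtain ⟨S, hS, hσ⟩ := hcov σ
    obtain ⟨i, rfl⟩ := hTs S hS
    exact ⟨i, hxp i σ hσ⟩
  have hobj : Convex ℝ Q → ∀ P : Fin n → ℤ × ℤ, Function.Injective P → InSquare R P →
      ∃ (c : Fin d → ℝ) (c₀ : ℝ),
        (∀ σ, |(∑ j, c j * x σ j + c₀) - tlen P σ| ≤ 2 * δ + 4 * ε * n * R) ∧
        ∀ i, ∀ y ∈ Piece Q p p₀ z (T i), ∃ σ, tlen P σ - (2 * δ + 4 * ε * n * R)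
          ≤ ∑ j, c j * y j + c₀ := by
    intro hQc P hPi hPR
    obtain ⟨c, c₀, hval, hopt⟩ := hP P hPi hPR
    have hnn : 0 ≤ 4 * ε * n * R := by positivity
    refine ⟨c, c₀, fun σ => ?_, fun i y hy => ?_⟩
    · have := hval σ
      linarith
    · obtain ⟨σ, hσ⟩ := hPIE (Equiv.Perm (Fin n)) d k Q p p₀ x z ε δ (2 * n * R)
        (fun σ => tlen P σ) c c₀ (T i) hQc hxQ hz hε hε4 hδ (fun σ => hLEN n R P σ hPR)
        (hF (T i) (hT i)).2 hval hopt y hy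
      refine ⟨σ, le_trans (le_of_eq ?_) hσ⟩
      ring
  refine ⟨F.card, hFc, ?_, ?_⟩
  · intro hLP
    exact hUNL d F.card n R r (2 * δ + 4 * ε * n * R) (fun i => Piece Q p p₀ z (T i))
      (fun i => (hCVX.2.2 (Equiv.Perm (Fin n)) d k r Q p p₀ z (T i) (hF (T i) (hT i)).1).1 hLP)
      hne x hxcov (hobj (hCVX.1 d r Q hLP))
  · intro hSDP
    exact hUNS d F.card n R r (2 * δ + 4 * ε * n * R) (fun i => Piece Q p p₀ z (T i))
      (fun i => (hCVX.2.2 (Equiv.Perm (Fin n)) d k r Q p p₀ z (T i) (hF (T i) (hT i)).1).2 hSDP)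
      hne x hxcov (hobj (hCVX.2.1 d r Q hSDP))

end Pool.Agent.Helper22.MI
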